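import Mathlib

/-!
# LibDB51: the theorem of Dwork and Bombieri, definitions

`𝕂` is a complete ultrametric field (in the end `ℂ_[p]`).
-/

open Filter Topology

namespace DB51

/-- coefficients of `exp (∑_{m ≥ 1} s_m T ^ m / m)`:
`a_0 = 1`, `(k + 1) a_{k+1} = ∑_{i ≤ k} s_{i+1} a_{k-i}` -/
noncomputable def peCoeff {R : Type*} [Field R] (s : ℕ → R) : ℕ → R
  | 0 => 1
  | k + 1 => ((k + 1 : ℕ) : R)⁻¹ * ∑ i : Fin (k + 1), s (i + 1) * peCoeff s (k - i)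

/-- `exp (∑_{m ≥ 1} s_m T ^ m / m)` -/
noncomputable def PE {R : Type*} [Field R] (s : ℕ → R) : PowerSeries R :=
  PowerSeries.mk (peCoeff s)

/-- Hankel determinants `det (a_{i+j})_{0 ≤ i, j ≤ m}` -/
noncomputable def hank {R : Type*} [CommRing R] (a : ℕ → R) (m : ℕ) : R :=
  Matrix.det (Matrix.of fun i j : Fin (m + 1) => a (i + j))

/-- `s_m = lim_N ∑_b ε_b ∑_{x ∈ α_{N,b}} x ^ m` with `β` families of finite multisets whose
elementary symmetric functions are bounded uniformly: for all slopes `c`,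
`‖e_k(α_{N,b})‖ ≤ q ^ (K c) / q ^ (c k)`. -/
structure Nuc {𝕂 : Type*} [NormedField 𝕂] (q : ℝ) (K : ℕ → ℕ) (β : ℕ) (s : ℕ → 𝕂) : Prop where
  ex : ∃ (α : ℕ → Fin β → Multiset 𝕂) (ε : Fin β → ℤ),
    (∀ b, ε b = 1 ∨ ε b = -1) ∧
    (∀ N b c k, ‖(α N b).esymm k‖ * (q ^ c) ^ k ≤ q ^ K c) ∧
    ∀ m, 1 ≤ m → Tendsto (fun N => ∑ b, (ε b : 𝕂) * ((α N b).map (· ^ m)).sum) atTop (𝓝 (s m))

/-- Teichmüller representatives of a finite field `L` of characteristic `p` in `𝕂` -/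
structure IsTeich {L 𝕂 : Type*} [Field L] [NormedField 𝕂] (τ : L →*₀ 𝕂) : Prop where
  add : ∀ x y, ‖τ (x + y) - τ x - τ y‖ < 1

/-- one step of a walk: the coefficient of `X ^ (p v - u)` in the series `H` -/
noncomputable def st {𝕂 ρ : Type*} [Zero 𝕂] [Fintype ρ] (p : ℕ) (H : (ρ → ℕ) → 𝕂)
    (v u : ρ → ℕ) : 𝕂 :=
  open Classical in if ∀ l, u l ≤ p * v l then H (fun l => p * v l - u l) else 0

/-- the total degree of an exponent -/
def wt {ρ : Type*} [Fintype ρ] (u : ρ → ℕ) : ℕ := ∑ l, u l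

/-- value of the power series with coefficients `H` -/
noncomputable def ev {𝕂 ρ : Type*} [NormedField 𝕂] [Fintype ρ] (H : (ρ → ℕ) → 𝕂) (x : ρ → 𝕂) : 𝕂 :=
  ∑' w : ρ → ℕ, H w * ∏ l, x l ^ w l

end DB51
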