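import Pool.Agent.LibDB51.Defs

/-!
# EigA.lean: traces, principal minors and their bound  (row DB51 EIGA)

Plan. `trace_pow_eq`: over an algebraically closed field `A` is similar to a triangular matrix; or
`Matrix.trace_eq_sum_roots_charpoly` for `A ^ m` together with
`(A ^ m).charpoly.roots = A.charpoly.roots.map (· ^ m)`: look in Mathlib for
`Matrix.charpoly_pow`/`aeval`/`Module.End` versions (`Mathlib/LinearAlgebra/Matrix/Charpoly/Eigs.lean`,
`…/LinearAlgebra/Eigenspace/Charpoly.lean`).  Another way: the generating function.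
`charpolyRev A = det (1 - X A)`, `X * derivative (charpolyRev)` identity (Jacobi), or the spectral mapping
via the product `det (g(A)) = ∏ g(α)` for `g = ∏ (C - ζ^i X)`: `det (λ - A ^ m) = ∏_i det (μ_i - A)` with
`μ_i` the `m`-th roots of `λ` (with multiplicity, `X ^ m - λ = ∏ (X - μ_i)` splits), which gives
`charpoly (A ^ m)` evaluated at all `λ`, hence its roots.
`esymm_roots_eq`: `Matrix.charpoly_coeff_eq_sum_minors` and
`Polynomial.coeff_eq_esymm_roots_of_splits`; for `k > card ι` both sides are `0`.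
`minors_bound`: `esymm_roots_eq`, Leibniz, ultrametric: for a permutation `τ` of the finset `I`,
`∏_{i ∈ I} ‖A i (τ i)‖ ≤ ∏ g_i ∏ μ_{τ i} / μ_i = ∏ g_i ≤ Y`.
-/

open Filter Topology Polynomial

namespace DB51

private theorem EIGA_charpoly_eq {F : Type*} [Field F] [IsAlgClosed F] {ι : Type*} [Fintype ι]
    [DecidableEq ι] (A : Matrix ι ι F) :
    A.charpoly = (A.charpoly.roots.map (fun a => X - C a)).prod :=
  (IsAlgClosed.splits A.charpoly).eq_prod_roots_of_monic A.charpoly_monic

private theorem EIGA_card_roots {F : Type*} [Field F] [IsAlgClosed F] {ι : Type*} [Fintype ι]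
    [DecidableEq ι] (A : Matrix ι ι F) : Multiset.card A.charpoly.roots = Fintype.card ι := by
  rw [splits_iff_card_roots.1 (IsAlgClosed.splits A.charpoly), A.charpoly_natDegree_eq_dim]

private theorem EIGA_det_sub {F : Type*} [Field F] [IsAlgClosed F] {ι : Type*} [Fintype ι]
    [DecidableEq ι] (A : Matrix ι ι F) (μ : F) :
    (aeval A (X - C μ)).det = (A.charpoly.roots.map (fun a => a - μ)).prod := by
  have h1 : aeval A (X - C μ) = -(Matrix.scalar ι μ - A) := by
    simp [Matrix.scalar_apply, Matrix.algebraMap_eq_diagonal, Pi.algebraMap_def]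
  have h2 : (Matrix.scalar ι μ - A).det = (A.charpoly.roots.map (fun a => μ - a)).prod := by
    rw [← Matrix.eval_charpoly]
    conv_lhs => rw [EIGA_charpoly_eq A]
    rw [eval_multiset_prod, Multiset.map_map]
    simp
  have h3 : (A.charpoly.roots.map (fun a => a - μ)) = A.charpoly.roots.map (fun a => (-1) * (μ - a)) := by
    apply Multiset.map_congr rfl
    intro a _; ring
  rw [h1, Matrix.det_neg, h2, h3, Multiset.prod_map_mul, Multiset.map_const', Multiset.prod_replicate,
    EIGA_card_roots]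

private theorem EIGA_det_prod {F : Type*} [Field F] [IsAlgClosed F] {ι : Type*} [Fintype ι]
    [DecidableEq ι] (A : Matrix ι ι F) (s : Multiset F) :
    (aeval A (s.map (fun μ => X - C μ)).prod).det
      = (A.charpoly.roots.map (fun a => eval a (s.map (fun μ => X - C μ)).prod)).prod := by
  induction s using Multiset.induction_on with
  | empty => simp
  | cons b s ih =>
    rw [Multiset.map_cons, Multiset.prod_cons, map_mul, Matrix.det_mul, ih, EIGA_det_sub]
    rw [← Multiset.prod_map_mul]
    simp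

private theorem EIGA_charpoly_pow {F : Type*} [Field F] [IsAlgClosed F] {ι : Type*} [Fintype ι]
    [DecidableEq ι] (A : Matrix ι ι F) (m : ℕ) (hm : m ≠ 0) :
    (A ^ m).charpoly = (A.charpoly.roots.map (fun a => X - C (a ^ m))).prod := by
  have : Infinite F := IsAlgClosed.instInfinite
  apply Polynomial.funext
  intro l
  rw [Matrix.eval_charpoly]
  have hmon : (X ^ m - C l : F[X]).Monic := monic_X_pow_sub_C l hm
  have hg : (X ^ m - C l : F[X]) = ((X ^ m - C l : F[X]).roots.map (fun μ => X - C μ)).prod :=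
    (IsAlgClosed.splits _).eq_prod_roots_of_monic hmon
  have h1 : (Matrix.scalar ι l - A ^ m) = -(aeval A (X ^ m - C l : F[X])) := by
    simp [Matrix.scalar_apply, Matrix.algebraMap_eq_diagonal, Pi.algebraMap_def]
  have h2 := EIGA_det_prod A (X ^ m - C l : F[X]).roots
  rw [← hg] at h2
  rw [h1, Matrix.det_neg, h2, eval_multiset_prod, Multiset.map_map]
  have h3 : (A.charpoly.roots.map ((fun p => eval l p) ∘ fun a => X - C (a ^ m)))
      = A.charpoly.roots.map (fun a => (-1) * (eval a (X ^ m - C l : F[X]))) := by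
    apply Multiset.map_congr rfl
    intro a _
    simp
  rw [h3, Multiset.prod_map_mul, Multiset.map_const', Multiset.prod_replicate,
    EIGA_card_roots]

/-- `trace A ^ m = ∑ α ^ m` -/
theorem trace_pow_eq {F : Type*} [Field F] [IsAlgClosed F] {ι : Type*} [Fintype ι] [DecidableEq ι]
    (A : Matrix ι ι F) (m : ℕ) : (A ^ m).trace = (A.charpoly.roots.map (· ^ m)).sum := by
  rcases Nat.eq_zero_or_pos m with rfl | hm
  · simp [EIGA_card_roots]
  · rw [Matrix.trace_eq_sum_roots_charpoly, EIGA_charpoly_pow A m hm.ne']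
    have : (A.charpoly.roots.map (fun a => X - C (a ^ m))).prod
        = ((A.charpoly.roots.map (· ^ m)).map (fun a => X - C a)).prod := by
      rw [Multiset.map_map]; rfl
    rw [this, roots_multiset_prod_X_sub_C]

/-- `e_k(α)` is the sum of the principal minors -/
theorem esymm_roots_eq {F : Type*} [Field F] [IsAlgClosed F] {ι : Type*} [Fintype ι]
    [DecidableEq ι] (A : Matrix ι ι F) (k : ℕ) :
    A.charpoly.roots.esymm k = ∑ s ∈ Finset.univ.powersetCard k,
      (A.submatrix (Subtype.val : s → ι) (Subtype.val : s → ι)).det := by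
  rcases le_or_gt k (Fintype.card ι) with hk | hk
  · have h1 := Matrix.charpoly_coeff_eq_sum_minors A k hk
    have h2 := coeff_eq_esymm_roots_of_splits (IsAlgClosed.splits A.charpoly)
      (k := Fintype.card ι - k) (by rw [A.charpoly_natDegree_eq_dim]; omega)
    rw [A.charpoly_natDegree_eq_dim, A.charpoly_monic.leadingCoeff, one_mul,
      Nat.sub_sub_self hk, h1] at h2
    have h3 : ((-1 : F) ^ k) ≠ 0 := pow_ne_zero _ (by simp)
    exact (mul_left_cancel₀ h3 h2).symm
  · rw [Multiset.esymm, Multiset.powersetCard_eq_empty _ (by rw [EIGA_card_roots]; exact hk),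
      Finset.powersetCard_eq_empty.2 (by rw [Finset.card_univ]; exact hk)]
    simp

/-- bound for principal minors: the factors `μ` telescope -/
theorem minors_bound {𝕂 : Type*} [NormedField 𝕂] [IsUltrametricDist 𝕂] [IsAlgClosed 𝕂]
    {ι : Type*} [Fintype ι] [DecidableEq ι] (A : Matrix ι ι 𝕂) (g μ : ι → ℝ)
    (hg : ∀ i, 0 ≤ g i) (hμ : ∀ i, 0 < μ i) (h : ∀ i j, ‖A i j‖ ≤ g i * (μ j / μ i)) (k : ℕ) {Y : ℝ}
    (hY0 : 0 ≤ Y)
    (hY : ∀ I : Finset ι, I.card = k → ∏ i ∈ I, g i ≤ Y) : ‖A.charpoly.roots.esymm k‖ ≤ Y := by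
  rw [esymm_roots_eq]
  apply IsUltrametricDist.norm_sum_le_of_forall_le_of_nonneg hY0
  intro s hs
  rw [Matrix.det_apply]
  apply IsUltrametricDist.norm_sum_le_of_forall_le_of_nonneg hY0
  intro σ _
  have h1 : ‖Equiv.Perm.sign σ • ∏ i : s, (A.submatrix (Subtype.val : s → ι) (Subtype.val : s → ι)) (σ i) i‖
      = ∏ i : s, ‖A (σ i) i‖ := by
    rw [Units.smul_def, ← Int.cast_smul_eq_zsmul 𝕂, norm_smul]
    have : ‖(((Equiv.Perm.sign σ : ℤˣ) : ℤ) : 𝕂)‖ = 1 := by
      rcases Int.units_eq_one_or (Equiv.Perm.sign σ) with h | h <;> simp [h]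
    rw [this, one_mul, norm_prod]
    rfl
  rw [h1]
  calc ∏ i : s, ‖A (σ i) i‖ ≤ ∏ i : s, (g (σ i) * (μ i / μ (σ i))) :=
        Finset.prod_le_prod (fun _ _ => norm_nonneg _) (fun i _ => h _ _)
    _ = (∏ i : s, g (σ i)) * ((∏ i : s, μ i) / ∏ i : s, μ (σ i)) := by
        rw [Finset.prod_mul_distrib, Finset.prod_div_distrib]
    _ = (∏ i : s, g i) * ((∏ i : s, μ i) / ∏ i : s, μ i) := by
        rw [Equiv.prod_comp σ (fun i : s => g i), Equiv.prod_comp σ (fun i : s => μ i)]
    _ = ∏ i : s, g i := by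
        have h0 : (∏ i : s, μ i) ≠ 0 := (Finset.prod_pos (fun (i : s) _ => hμ i)).ne'
        rw [div_self h0, mul_one]
    _ = ∏ i ∈ s, g i := Finset.prod_coe_sort s g
    _ ≤ Y := hY s (Finset.mem_powersetCard.1 hs).2

end DB51
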